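import Pool.Agent.Y691.ST.ThinDefs
import Pool.Agent.Y691.ST.PermThin

/-!
# The parity conjecture for abelian varieties over number fields: reduction to a thin family
-/

set_option autoImplicit false

open Pool.Agent.Y691.ST

namespace Pool.Agent.Results.MP_ac3185_nt.SmallDecompositionGroups

/-- **The parity conjecture for an abelian variety over all number fields.** Let `A` be an abelian variety
over `ℚ`, `M` a finite Galois extension of `ℚ` (the fixed field of `N`; for example one over which `A` is
semistable) and `V` a finite set of places of `ℚ` (for example the places of bad reduction and the real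
place). Assume the parity conjecture for `A` over the number fields `K` for which the Galois group of
`K M / K` is an extension of a `2`-group by a cyclic group, and either all its decomposition groups at the
places above the places in `V` are `2`-groups, or it is contained in the decomposition group of a place of
`M` above a place in `V`. Then the parity conjecture is true for `A` over all number fields. -/
theorem result {E : ParityData} (hE : IsParityData E) {V : Finset (AbsoluteValue Qbar ℝ)}
    (hV : ArePlaces V) {N : Subgroup GalQ} (hNn : N.Normal) (hN : IsOpen (N : Set GalQ))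
    (thin : ∀ U : Subgroup GalQ, IsOpen (U : Set GalQ) → HyperMod 2 N U →
      SmallOrLocal 2 V N U → E.Holds U)
    {U : Subgroup GalQ} (hU : IsOpen (U : Set GalQ)) : E.Holds U := by
  classical
  let B : Subgroup GalQ → Additive ℤˣ := fun W => Additive.ofMul ((-1) ^ E.rank W * E.root W)
  have hsq : ∀ x : ℤˣ, x * x = 1 := Int.units_mul_self
  have hzero : ∀ W, B W = 0 ↔ E.Holds W := by
    intro W
    have h1 : B W = 0 ↔ (-1) ^ E.rank W * E.root W = 1 := Iff.rfl
    rw [h1]
    unfold ParityData.Holds
    constructor
    · intro h
      have h2 := congrArg (fun x : ℤˣ => x * E.root W) h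
      simp only [mul_assoc, hsq, mul_one, one_mul] at h2
      exact h2
    · intro h
      rw [h, hsq]
  have hsum : ∀ l : List (Subgroup GalQ), (l.map B).sum =
      Additive.ofMul ((-1) ^ (l.map E.rank).sum * (l.map E.root).prod) := by
    intro l
    induction l with
    | nil => rfl
    | cons a l ih =>
      rw [List.map_cons, List.sum_cons, ih, List.map_cons, List.sum_cons, List.map_cons,
        List.prod_cons, pow_add]
      show Additive.ofMul (((-1) ^ E.rank a * E.root a) *
        ((-1) ^ (l.map E.rank).sum * (l.map E.root).prod)) = _
      congr 1
      exact mul_mul_mul_comm _ _ _ _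
  have hB : Brauer B := by
    intro l l' h h' hs
    rw [hsum, hsum, hE.root l l' ⟨h, h', hs⟩, hE.rank l l' ⟨h, h', hs⟩]
  obtain ⟨m, hm, hm1⟩ := thin_prime hB hV hNn hN Nat.prime_two
    (fun W hW h1 h2 => (hzero W).mpr (thin W hW h1 h2)) hU
  rw [← hzero]
  obtain ⟨k, rfl⟩ := Nat.odd_iff.mpr (by omega : m % 2 = 1)
  have h2 : (2 : ℕ) • B U = 0 := by
    rw [two_nsmul]
    exact hsq _
  rw [add_smul, mul_comm, mul_smul, h2, smul_zero, zero_add, one_smul] at hm1
  exact hm1

end Pool.Agent.Results.MP_ac3185_nt.SmallDecompositionGroups
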